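import Pool.Agent.IrrPairs.RowK

set_option autoImplicit false

/-!
# Bounded index of irregularity forces irregular couples at almost all indices (MP_4a79a0_nt)

`irr p` is the index of irregularity of `p` (file `Pool/Agent/IrrPairs/Defs.lean`): the number
of `k` with `2 ≤ 2k ≤ p - 3` such that `p` divides the numerator of the Bernoulli number
`B_{2k}`.
-/

namespace Pool.Agent.Results.MP_4a79a0_nt.DensityOne

open Filter Pool.Agent.IrrPairs

/-- If for some `s` only finitely many primes have index of irregularity at least `s`, then the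
set of `k` for which there is an irregular couple `(p, 2k)` (a prime `p ≥ 2k + 3` dividing the
numerator of `B_{2k}`) has natural density `1`. -/
theorem result (s : ℕ) (hfin : ¬ Set.Infinite {p : ℕ | p.Prime ∧ s ≤ irr p}) :
    Tendsto (fun n : ℕ =>
      (Set.ncard {k : ℕ | 1 ≤ k ∧ k ≤ n ∧
        ∃ p : ℕ, p.Prime ∧ 2 * k + 3 ≤ p ∧ (p : ℤ) ∣ (bernoulli (2 * k)).num} : ℝ) / (n : ℝ))
      atTop (nhds 1) := by
  have hf : {p : ℕ | p.Prime ∧ s + 1 ≤ irr p}.Finite := by
    rw [Set.not_infinite] at hfin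
    apply hfin.subset
    intro p hp
    exact ⟨hp.1, by have := hp.2; omega⟩
  rw [Metric.tendsto_nhds]
  intro η hη
  filter_upwards [density_n s hf (η / 2) (by positivity), eventually_ge_atTop 1] with n hn h1n
  obtain ⟨W, hW1, hW2, hW3⟩ := hn
  have hn1 : (1 : ℝ) ≤ n := by exact_mod_cast h1n
  have hn0 : (0 : ℝ) < n := by linarith
  set S : Set ℕ := {k : ℕ | 1 ≤ k ∧ k ≤ n ∧
        ∃ p : ℕ, p.Prime ∧ 2 * k + 3 ≤ p ∧ (p : ℤ) ∣ (bernoulli (2 * k)).num} with hS
  have hSsub : S ⊆ (Finset.Icc 1 n : Finset ℕ) := by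
    intro k hk
    rw [Finset.coe_Icc]
    exact ⟨hk.1, hk.2.1⟩
  have hSfin : S.Finite := (Finset.finite_toSet _).subset hSsub
  have hup : S.ncard ≤ n := by
    have := Set.ncard_le_ncard hSsub (Finset.finite_toSet _)
    rwa [Set.ncard_coe_finset, Nat.card_Icc, Nat.add_sub_cancel] at this
  have hlow : W.card ≤ S.ncard := by
    rw [← Set.ncard_coe_finset W]
    apply Set.ncard_le_ncard _ hSfin
    intro k hk
    have hk' : k ∈ W := hk
    have h1 := Finset.mem_Icc.mp (hW1 hk')
    obtain ⟨q, a1, a2, a3⟩ := hW3 k hk'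
    exact ⟨h1.1, h1.2, q, a1, by omega, a3⟩
  have hupR : (S.ncard : ℝ) ≤ n := by exact_mod_cast hup
  have hlowR : (W.card : ℝ) ≤ (S.ncard : ℝ) := by exact_mod_cast hlow
  rw [Real.dist_eq, abs_lt]
  constructor
  · rw [lt_sub_iff_add_lt, lt_div_iff₀ hn0]
    nlinarith
  · have : (S.ncard : ℝ) / n ≤ 1 := by
      rw [div_le_one hn0]; exact hupR
    linarith

end Pool.Agent.Results.MP_4a79a0_nt.DensityOne
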