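import Pool.Agent.IrrPairs.RowK
import Pool.Agent.IrrPairs.RowT

set_option autoImplicit false

/-!
# Many primes of large index of irregularity, or a large total index (MP_4a79a0_nt)

`irr p` is the index of irregularity of `p` (file `Pool/Agent/IrrPairs/Defs.lean`): the number
of `k` with `2 ≤ 2k ≤ p - 3` such that `p` divides the numerator of the Bernoulli number
`B_{2k}`.
-/

namespace Pool.Agent.Results.MP_4a79a0_nt.Dichotomy

open Filter Pool.Agent.IrrPairs

/-- For every `δ` in `(0,1)` there is `c > 0` such that for every `s ≥ 0` and all large `x`,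
either at least `c log x / (log log x)^2` primes `p ≤ x` have `ii(p) ≥ s + 1`, or the sum of
`ii(p)` over the primes `p ≤ x` with `ii(p) ≤ s` is at least
`(1 - δ) log x / (2 log log x)`. -/
theorem result (δ : ℝ) (hδ : 0 < δ) (hδ1 : δ < 1) :
    ∃ c : ℝ, 0 < c ∧ ∀ s : ℕ, ∀ᶠ x : ℝ in atTop,
      c * (Real.log x / (Real.log (Real.log x)) ^ 2) ≤
        ((((Finset.Icc 1 ⌊x⌋₊).filter
          (fun p : ℕ => p.Prime ∧ s + 1 ≤ irr p)).card : ℕ) : ℝ) ∨
      (1 - δ) * (Real.log x / (2 * Real.log (Real.log x))) ≤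
        ((∑ p ∈ (Finset.Icc 1 ⌊x⌋₊).filter
          (fun p : ℕ => p.Prime ∧ irr p ≤ s), irr p : ℕ) : ℝ) := by
  obtain ⟨N, hN, hT⟩ := transfer (δ / 2) (by positivity) (by linarith)
  obtain ⟨κ, hκ, hD⟩ := dichotomy_n (δ / 2) (by positivity)
  refine ⟨κ / 4, by positivity, fun s => ?_⟩
  have hLL : ∀ᶠ x : ℝ in atTop, 1 ≤ Real.log (Real.log x) :=
    (Real.tendsto_log_atTop.comp Real.tendsto_log_atTop).eventually (eventually_ge_atTop 1)
  have hL : ∀ᶠ x : ℝ in atTop, 1 ≤ Real.log x :=
    Real.tendsto_log_atTop.eventually (eventually_ge_atTop 1)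
  filter_upwards [hT, hN.eventually (hD s), hLL, hL] with x hT hD hLL hL
  obtain ⟨hx, hlow, hlog⟩ := hT
  have hX : 16 * (2 * N x + 2).factorial ≤ ⌊x⌋₊ := Nat.le_floor hx
  have hsub : Finset.Icc 1 (16 * (2 * N x + 2).factorial) ⊆ Finset.Icc 1 ⌊x⌋₊ :=
    Finset.Icc_subset_Icc_right hX
  have hNlow : (1 - δ / 2) * (Real.log x / (2 * Real.log (Real.log x))) ≤ (N x : ℝ) := hlow
  have hquot : 0 ≤ Real.log x / (2 * Real.log (Real.log x)) := by positivity
  rcases hD with h1 | h2
  · left
    have hc : ((bigIndex (s + 1) (16 * (2 * N x + 2).factorial)).card : ℝ) ≤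
        ((((Finset.Icc 1 ⌊x⌋₊).filter
          (fun p : ℕ => p.Prime ∧ s + 1 ≤ irr p)).card : ℕ) : ℝ) := by
      have := Finset.card_le_card (Finset.filter_subset_filter
        (fun p : ℕ => p.Prime ∧ s + 1 ≤ irr p) hsub)
      exact_mod_cast this
    set A : ℝ := ((((Finset.Icc 1 ⌊x⌋₊).filter
          (fun p : ℕ => p.Prime ∧ s + 1 ≤ irr p)).card : ℕ) : ℝ) with hA
    have hA0 : 0 ≤ A := by positivity
    have hb0 : (0 : ℝ) ≤ ((bigIndex (s + 1) (16 * (2 * N x + 2).factorial)).card : ℝ) := by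
      positivity
    have h3 : κ * (N x : ℝ) ≤ A * Real.log (Real.log x) := by
      refine h1.trans ?_
      calc ((bigIndex (s + 1) (16 * (2 * N x + 2).factorial)).card : ℝ) * Real.log (N x)
          ≤ ((bigIndex (s + 1) (16 * (2 * N x + 2).factorial)).card : ℝ) *
            Real.log (Real.log x) := mul_le_mul_of_nonneg_left hlog hb0
        _ ≤ A * Real.log (Real.log x) := mul_le_mul_of_nonneg_right hc (by linarith)
    have h4 : κ * (1 / 2 * (Real.log x / (2 * Real.log (Real.log x)))) ≤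
        A * Real.log (Real.log x) := by
      refine le_trans ?_ h3
      apply mul_le_mul_of_nonneg_left _ hκ.le
      refine le_trans ?_ hNlow
      apply mul_le_mul_of_nonneg_right _ hquot
      linarith
    have hLLpos : 0 < Real.log (Real.log x) := by linarith
    have h5 : κ / 4 * (Real.log x / (Real.log (Real.log x)) ^ 2) * Real.log (Real.log x) ≤
        A * Real.log (Real.log x) := by
      refine le_trans (le_of_eq ?_) h4
      field_simp
      ring
    exact le_of_mul_le_mul_right h5 hLLpos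
  · right
    have hc : ((∑ q ∈ smallIndex s (16 * (2 * N x + 2).factorial), irr q : ℕ) : ℝ) ≤
        ((∑ p ∈ (Finset.Icc 1 ⌊x⌋₊).filter
          (fun p : ℕ => p.Prime ∧ irr p ≤ s), irr p : ℕ) : ℝ) := by
      have : ∑ q ∈ smallIndex s (16 * (2 * N x + 2).factorial), irr q ≤
          ∑ p ∈ (Finset.Icc 1 ⌊x⌋₊).filter (fun p : ℕ => p.Prime ∧ irr p ≤ s), irr p :=
        Finset.sum_le_sum_of_subset (Finset.filter_subset_filter
          (fun p : ℕ => p.Prime ∧ irr p ≤ s) hsub)
      exact_mod_cast this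
    refine le_trans ?_ (h2.trans hc)
    have h3 : (1 - δ / 2) * ((1 - δ / 2) * (Real.log x / (2 * Real.log (Real.log x)))) ≤
        (1 - δ / 2) * (N x : ℝ) := mul_le_mul_of_nonneg_left hNlow (by linarith)
    refine le_trans ?_ h3
    rw [← mul_assoc]
    apply mul_le_mul_of_nonneg_right _ hquot
    nlinarith

end Pool.Agent.Results.MP_4a79a0_nt.Dichotomy
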