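import Pool.Agent.IrrPairs.RowH
import Pool.Agent.IrrPairs.RowT

set_option autoImplicit false

/-!
# The total index of irregularity (MP_4a79a0_nt)

`irr p` is the index of irregularity of `p` (file `Pool/Agent/IrrPairs/Defs.lean`): the number
of `k` with `2 ≤ 2k ≤ p - 3` such that `p` divides the numerator of the Bernoulli number
`B_{2k}`.
-/

namespace Pool.Agent.Results.MP_4a79a0_nt.TotalIndex

open Filter Pool.Agent.IrrPairs

/-- The sum of the indices of irregularity of the primes `p ≤ x` is at least a constant times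
`log x / log log x`. -/
theorem result :
    ∃ c : ℝ, 0 < c ∧ ∀ᶠ x : ℝ in atTop,
      c * (Real.log x / Real.log (Real.log x)) ≤
        ((∑ p ∈ (Finset.Icc 1 ⌊x⌋₊).filter Nat.Prime, irr p : ℕ) : ℝ) := by
  obtain ⟨N, hN, hT⟩ := transfer (1 / 2) (by norm_num) (by norm_num)
  refine ⟨1 / 16384, by norm_num, ?_⟩
  have hLL : ∀ᶠ x : ℝ in atTop, 1 ≤ Real.log (Real.log x) :=
    (Real.tendsto_log_atTop.comp Real.tendsto_log_atTop).eventually (eventually_ge_atTop 1)
  filter_upwards [hT, hN.eventually totalIrr_lower, hLL] with x hT hD hLL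
  obtain ⟨hx, hlow, -⟩ := hT
  have hX : 16 * (2 * N x + 2).factorial ≤ ⌊x⌋₊ := Nat.le_floor hx
  have hsub : Finset.Icc 1 (16 * (2 * N x + 2).factorial) ⊆ Finset.Icc 1 ⌊x⌋₊ :=
    Finset.Icc_subset_Icc_right hX
  have hc : (totalIrr (16 * (2 * N x + 2).factorial) : ℝ) ≤
      ((∑ p ∈ (Finset.Icc 1 ⌊x⌋₊).filter Nat.Prime, irr p : ℕ) : ℝ) := by
    have : totalIrr (16 * (2 * N x + 2).factorial) ≤
        ∑ p ∈ (Finset.Icc 1 ⌊x⌋₊).filter Nat.Prime, irr p :=
      Finset.sum_le_sum_of_subset (Finset.filter_subset_filter Nat.Prime hsub)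
    exact_mod_cast this
  refine le_trans ?_ (hD.trans hc)
  have hLLpos : 0 < Real.log (Real.log x) := by linarith
  have e : Real.log x / Real.log (Real.log x) =
      2 * (Real.log x / (2 * Real.log (Real.log x))) := by
    field_simp
  rw [e]
  linarith

end Pool.Agent.Results.MP_4a79a0_nt.TotalIndex
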